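import Mathlib
import Pool.Agent.V11104.NC.Main

/-!
# The `C^r` closing lemma at limits of periodic nilmanifolds with affine return map

`V n = ℝⁿ`, `DiffM n N r = Diff^r(N)`, `strongTop n N r` is its strong (Whitney) `C^r` topology (the
usual one, `N` being compact), `IsPer G z`: `z` is periodic for `G` (`Pool/Agent/H718R2/G0.lean`).

From `Pool/Agent/V11104/NC`:
* `IsNilGroup w G`: `G` is a simply connected nilpotent Lie group, given as a group of real unipotent
  matrices defined over `ℚ`: `G` is the set of all products `exp (s₁ X₁) ⋯ exp (s_k X_k)` for some
  rational matrices `X_i`, strictly block triangular with respect to the weights `w`. (By a theorem of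
  Malcev every simply connected nilpotent Lie group which has a lattice is of this form, and its
  lattices can be assumed to be commensurable with `G ∩ SL(d, ℤ)`.)
* `IsGAction G n N O act`: smooth action of `G` on the open set `O ⊆ N`.
* `IsConj w M σ`: the automorphism `σ` of `G` is the conjugation by the integral matrix `M`, `det M = ±1`,
  block triangular with respect to `w`.
* `IsNilPer n N F y`: `y` lies on a periodic nilmanifold of `F` with affine return map: `G` acts smoothly
  on an open set `O` of `N`, `C = G y₀ ≅ G / Γ` is a compact orbit in `O`, where `Γ` contains a subgroup of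
  finite index of `G ∩ SL(d, ℤ)`, the point `y` is in `C`, `F^m(C) = C`, the sets `F^i(C)`, `0 < i < m`,
  do not meet `C`, and `F^m` is on `C` the affine map `g y₀ ↦ h σ(g) y₀` for some (arbitrary) `h ∈ G` and
  some automorphism `σ` as above. Nothing is required of `F` elsewhere.

Examples: all translations and all affine diffeomorphisms of compact nilmanifolds `G / Γ` and of their
quotients (tori, Heisenberg manifolds, ...), hyperbolic or not, at all points; fibre bundles with such
fibres, maps which can be approximated by maps for which the fibre of `z` is a limit of periodic fibres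
with affine return maps; invariant nilmanifolds of arbitrary codimension of arbitrary diffeomorphisms.
-/

set_option autoImplicit false

open scoped Manifold ContDiff Topology

namespace Pool.Agent.Results.MP_1e8d1a_an.PeriodicNilmanifolds

open Pool.Agent.H718R2.G Pool.Agent.V11104.NC

/-- Let `N` be a closed manifold, `F ∈ Diff^r(N)` (`0 ≤ r ≤ ∞`) and `z ∈ N`. Suppose that arbitrarily
`C^r`-close to `F` there are diffeomorphisms `F'` (for example `F' = F`) for which `z` is a limit of
points lying on periodic nilmanifolds on which the return map is affine. Then the conclusion of the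
`C^r` closing lemma holds for `F` at `z`. -/
theorem result {n : ℕ} {N : Type*} [TopologicalSpace N] [T2Space N] [CompactSpace N]
    [ChartedSpace (V n) N] [IsManifold (𝓡 n) ∞ N] (r : ℕ∞) (F : DiffM n N r) (z : N)
    (h : ∀ U : Set (DiffM n N r), IsOpen[strongTop n N r] U → F ∈ U →
      ∃ F' ∈ U, z ∈ closure {y | IsNilPer n N F' y}) :
    ∀ U : Set (DiffM n N r), IsOpen[strongTop n N r] U → F ∈ U → ∃ G ∈ U, IsPer G z :=
  main F z h

end Pool.Agent.Results.MP_1e8d1a_an.PeriodicNilmanifolds
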