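import Mathlib
import Pool.Agent.V11260.PT.Main

/-!
# The `C^r` closing lemma at limits of periodic embedded tori with tower dynamics

`V n` is `ℝⁿ`, `DiffM n N r` is `Diff^r(N)` and `strongTop n N r` its strong (Whitney) `C^r` topology (the
usual one, `N` being compact), `IsPer G z`: `z` is periodic for `G` (`Pool/Agent/H718R2/G0.lean`).

`OnMixedTorus n N F' y`, `OnShadowTorus n N F' y` (`Pool/Agent/V11260/PT/Defs.lean`): `y` lies on an
embedded torus `C` which is periodic for `F'` (`F'^p(C) = C`, `C` disjoint from `F'^i(C)` for `0 < i < p`),
and the return map `F'^p` of `C` is in suitable coordinates a tower (`MixTower`, `IsTower`, see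
`Pool/Agent/H922R3/CL/DefsB.lean`, `Defs.lean`)
`(b, x, y) ↦ (H b, (g_i (b, x_i))_i, (y_i + φ_i (b, x, y_0, …, y_{i-1}))_i)`,
with increasing `g_i (b, ·)`, where
* `H` is a mixed base map (the product of circle homeomorphisms conjugate to rotations with an isometric
  toral extension of a map Hölder conjugate to a hyperbolic automorphism) and `y` is nonwandering for the
  return map, respectively
* `H` is conjugate to a hyperbolic automorphism, or has the periodic shadowing property, and `y` is chain
  recurrent for the return map.

For instance `C` can be a circle and the return map any orientation preserving homeomorphism of `C`.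
Nothing is required of `F'` outside of `C, F'(C), …, F'^(p-1)(C)`.
-/

set_option autoImplicit false

open scoped Manifold ContDiff Topology

namespace Pool.Agent.Results.MP_1e8d1a_an.PeriodicTori

open Pool.Agent.H718R2.G Pool.Agent.V11260.PT

/-- Let `N` be a closed manifold, `0 ≤ r ≤ ∞`, `F ∈ Diff^r(N)` and `z ∈ N`. Suppose that arbitrarily
`C^r`-close to `F` there are diffeomorphisms `F'` (for example `F' = F`) for which `z` is a limit of points
`y` which lie on periodic embedded tori the return maps of which are towers, and which are nonwandering
(respectively chain recurrent) for the return map. Then the conclusion of the `C^r` closing lemma holds for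
`F` at `z`. -/
theorem result {n : ℕ} {N : Type*} [TopologicalSpace N] [T2Space N] [CompactSpace N]
    [ChartedSpace (V n) N] [IsManifold (𝓡 n) ∞ N] (r : ℕ∞) (F : DiffM n N r) (z : N)
    (h : ∀ U : Set (DiffM n N r), IsOpen[strongTop n N r] U → F ∈ U →
      ∃ F' ∈ U, z ∈ closure {y | OnMixedTorus n N F' y ∨ OnShadowTorus n N F' y}) :
    ∀ U : Set (DiffM n N r), IsOpen[strongTop n N r] U → F ∈ U → ∃ G ∈ U, IsPer G z :=
  main F z h

end Pool.Agent.Results.MP_1e8d1a_an.PeriodicTori
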