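import Mathlib
import Pool.Agent.V11260.PR.Main

/-!
# The `C^r` closing lemma for products of arbitrary homeomorphisms with rotations

`V n` is `ℝⁿ`, `DiffM n N r` is `Diff^r(N)` and `strongTop n N r` its strong (Whitney) `C^r` topology (the
usual one, `N` being compact), `IsPer G z`: `z` is periodic for `G` (`Pool/Agent/H718R2/G0.lean`).

`OnRot n N F' y` (`Pool/Agent/V11260/PR/Defs.lean`): `y` lies on a compact set `C` which is periodic for `F'`
(`F'^p(C) ⊆ C`, `C` disjoint from `F'^i(C)` for `0 < i < p`), such that
* `C ≅ X × ℝ/ℤ`, where the circle direction is given by a smooth flow `ψ` defined near `C` (with period `1`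
  on `C`) and the projection to `ℝ/ℤ` by a smooth function `a` of `N`, `a (ψ t y) = exp(2πit) a(y)` on `C`;
* on `C ≅ X × ℝ/ℤ` the map `F'^p` is `f × R_α`, where `f` is an ARBITRARY continuous injection of the
  compact set `X` and `R_α` is the rotation by an ARBITRARY real number `α`;
* the `X`-coordinate of `y` is nonwandering for `f` (`y` itself need not be nonwandering for `F'`).

Nothing is required of `F'` outside of `C, F'(C), …, F'^(p-1)(C)`.

Idea of the proof: the rotation by `α` is replaced by a circle diffeomorphism `g` close to it, for which
the level of `y` has exactly the period `M`, where `M` is a given long return time of the `X`-coordinate, and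
does not return to a fixed neighbourhood of itself before the time `M`. For this one needs fractions
`l / M` in lowest terms close to a fraction `p / q` close to `α` with `l q - p M` and `q` bounded
independently of `M`.
-/

set_option autoImplicit false

open scoped Manifold ContDiff Topology

namespace Pool.Agent.Results.MP_1e8d1a_an.ProductsWithRotations

open Pool.Agent.H718R2.G Pool.Agent.V11260.PR

/-- Let `N` be a closed manifold, `1 ≤ r ≤ ∞`, `F ∈ Diff^r(N)` and `z ∈ N`. Suppose that arbitrarily
`C^r`-close to `F` there are diffeomorphisms `F'` (for example `F' = F`) for which `z` is a limit of points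
`y` of compact periodic sets `X × ℝ/ℤ` on which the return map is the product of a map `f` of `X` with a
rotation, the `X`-coordinate of `y` being nonwandering for `f`. Then the conclusion of the `C^r` closing
lemma holds for `F` at `z`. -/
theorem result {n : ℕ} {N : Type*} [TopologicalSpace N] [T2Space N] [CompactSpace N]
    [ChartedSpace (V n) N] [IsManifold (𝓡 n) ∞ N] (r : ℕ∞) (hr : 1 ≤ r) (F : DiffM n N r) (z : N)
    (h : ∀ U : Set (DiffM n N r), IsOpen[strongTop n N r] U → F ∈ U →
      ∃ F' ∈ U, z ∈ closure {y | OnRot n N F' y}) :
    ∀ U : Set (DiffM n N r), IsOpen[strongTop n N r] U → F ∈ U → ∃ G ∈ U, IsPer G z :=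
  main hr F z h

end Pool.Agent.Results.MP_1e8d1a_an.ProductsWithRotations
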