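import Mathlib
import Pool.Agent.V11260.PE.Main

/-!
# The `C^r` closing lemma for torus extensions of products of arbitrary maps with mixing maps

`V n` is `ℝⁿ`, `DiffM n N r` is `Diff^r(N)` and `strongTop n N r` its strong (Whitney) `C^r` topology (the
usual one, `N` being compact), `IsPer G z`: `z` is periodic for `G` (`Pool/Agent/H718R2/G0.lean`).
`NonWand`, `PerShadow`, `ChainMix`: nonwandering points, periodic shadowing property, chain mixing
(`Pool/Agent/W564/SC/Defs.lean`).

`OnExt n N F' y` (`Pool/Agent/V11260/PE/Defs.lean`): `y = Θ(x, y', u)`, where
* `Θ` is an embedding of `X × Y × (ℝ/ℤ)^k` (`X`, `Y` compact metric spaces, `k ≥ 0`) onto a compact set `C` of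
  `N`, such that the constant vector fields of the torus directions extend from `C` to smooth vector
  fields near `C` with complete flows;
* `C` is periodic for `F'` (disjoint from `F'^i(C)` for `0 < i < p`), and the return map is
  `F'^p (x, y, u) = (f x, h y, u + φ (x, y))`, where `f` is an ARBITRARY homeomorphism of `X`, `φ` is an
  ARBITRARY (continuous) cocycle, and `h` is a chain mixing homeomorphism with the periodic shadowing property
  (for instance a hyperbolic automorphism of a torus);
* `x` is a nonwandering point of `f`; the points `y` and `u` are arbitrary.

Nothing is required of `F'` outside of `C, F'(C), …, F'^(p-1)(C)`.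

Idea of the proof: take a long return time `m` of `x`, and a point `y₁` near `y` with the period `m` under `h`,
the orbit of which comes back near `y₁` only near the times `0` and `m`. A translation of the torus
directions by a vector `s` of length at most `1/m`, which extends to a diffeomorphism near the identity,
makes the sum of the cocycle along the orbit an integer vector, so that only the distance between `x` and
its return has to be closed by a local perturbation.
-/

set_option autoImplicit false

open scoped Manifold ContDiff Topology

namespace Pool.Agent.Results.MP_1e8d1a_an.TorusExtensions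

open Pool.Agent.H718R2.G Pool.Agent.V11260.PE

/-- Let `N` be a closed manifold, `1 ≤ r ≤ ∞`, `F ∈ Diff^r(N)` and `z ∈ N`. Suppose that arbitrarily
`C^r`-close to `F` there are diffeomorphisms `F'` (for example `F' = F`) for which `z` is a limit of points
`y` of compact periodic sets `X × Y × (ℝ/ℤ)^k` on which the return map is a torus extension of `f × h`, with
`f` arbitrary, `h` chain mixing with periodic shadowing, the `X`-coordinate of `y` being nonwandering for
`f`. Then the conclusion of the `C^r` closing lemma holds for `F` at `z`. -/
theorem result {n : ℕ} {N : Type*} [TopologicalSpace N] [T2Space N] [CompactSpace N]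
    [ChartedSpace (V n) N] [IsManifold (𝓡 n) ∞ N] (r : ℕ∞) (hr : 1 ≤ r) (F : DiffM n N r) (z : N)
    (h : ∀ U : Set (DiffM n N r), IsOpen[strongTop n N r] U → F ∈ U →
      ∃ F' ∈ U, z ∈ closure {y | OnExt n N F' y}) :
    ∀ U : Set (DiffM n N r), IsOpen[strongTop n N r] U → F ∈ U → ∃ G ∈ U, IsPer G z :=
  main hr F z h

end Pool.Agent.Results.MP_1e8d1a_an.TorusExtensions
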